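import Pool.Agent.Y819.ZF.Stm2
import Pool.Agent.Y438.ZF.Alt

set_option autoImplicit false

/-!
# Project ZF: re-indexing, re-orienting and renumbering change the coefficient only by a sign
-/

namespace Pool.Agent.Y431.ZF

open MvPolynomial Finset Pool.Agent.Helper929 Pool.Agent.H604R2.LEC Pool.Agent.Y819.ZF

section phi

variable {R : Type} [CommRing R] {E E' : Type} [Fintype E] [Fintype E']

/-- the substitution `X e ↦ δ e * X (ψ e)` -/
noncomputable def Phi (δ : E → R) (ψ : E ≃ E') : MvPolynomial E R →+* MvPolynomial E' R :=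
  eval₂Hom C (fun e => C (δ e) * X (ψ e))

theorem Phi_X (δ : E → R) (ψ : E ≃ E') (e : E) : Phi δ ψ (X e) = C (δ e) * X (ψ e) := by
  simp [Phi]

theorem Phi_C (δ : E → R) (ψ : E ≃ E') (a : R) : Phi δ ψ (C a) = C a := by
  simp [Phi]

theorem sum_single (ψ : E ≃ E') (s : E →₀ ℕ) (e₀ : E) :
    (∑ e, Finsupp.single (ψ e) (s e)) (ψ e₀) = s e₀ := by
  classical
  rw [Finsupp.finset_sum_apply, Finset.sum_eq_single e₀]
  · simp
  · intro e _ he
    rw [Finsupp.single_apply, if_neg]
    intro h
    exact he (ψ.injective h)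
  · simp

theorem sum_single_iff (ψ : E ≃ E') (s : E →₀ ℕ) :
    (∑ e, Finsupp.single (ψ e) (s e)) = oneE E' ↔ s = oneE E := by
  constructor
  · intro h
    ext e
    rw [← sum_single ψ s e, h]
    rfl
  · intro h
    ext e'
    obtain ⟨e, rfl⟩ := ψ.surjective e'
    rw [sum_single, h]
    rfl

theorem coeff_Phi (δ : E → R) (ψ : E ≃ E') (g : MvPolynomial E R) :
    coeff (oneE E') (Phi δ ψ g) = (∏ e, δ e) * coeff (oneE E) g := by
  classical
  induction g using MvPolynomial.induction_on' with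
  | monomial s a =>
    have h1 : Phi δ ψ (monomial s a) = C (a * ∏ e, δ e ^ s e) *
        monomial (∑ e, Finsupp.single (ψ e) (s e)) 1 := by
      rw [Phi, coe_eval₂Hom, eval₂_monomial, Finsupp.prod_fintype _ _ (fun e => pow_zero _)]
      simp only [mul_pow]
      rw [Finset.prod_mul_distrib, monomial_sum_index, map_one, one_mul, map_mul, map_prod,
        ← mul_assoc]
      simp only [map_pow, X_pow_eq_monomial]
    rw [h1, coeff_C_mul, coeff_monomial, coeff_monomial]
    by_cases h : s = oneE E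
    · rw [if_pos ((sum_single_iff ψ s).mpr h), if_pos h, h]
      have : ∏ e, δ e ^ (oneE E) e = ∏ e, δ e :=
        Finset.prod_congr rfl fun e _ => by
          show δ e ^ 1 = δ e
          rw [pow_one]
      rw [this]; ring
    · rw [if_neg (fun h' => h ((sum_single_iff ψ s).mp h')), if_neg h]; ring
  | add p q hp hq => rw [map_add, coeff_add, coeff_add, hp, hq]; ring

end phi

theorem main : S_ISO := by
  classical
  intro R _ d n E E' _ _ τ η τ' η' ψ σ h
  let δz : E → ℤ := fun e => if τ' (ψ e) = σ (τ e) ∧ η' (ψ e) = σ (η e) then 1 else -1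
  have hδz : ∀ e, IsUnit (δz e) := by
    intro e
    simp only [δz]
    split_ifs
    · exact isUnit_one
    · exact isUnit_one.neg
  let δ : E → R := fun e => ((δz e : ℤ) : R)
  have hSM : SM R τ' η' = (SM R (fun e => σ (τ e)) (fun e => σ (η e))).map (Phi δ ψ) := by
    ext1 i j
    simp only [SM, Matrix.of_apply, Matrix.map_apply]
    rw [map_sum, ← Equiv.sum_comp ψ]
    refine Finset.sum_congr rfl fun e _ => ?_
    rw [map_sub]
    by_cases hA : τ' (ψ e) = σ (τ e) ∧ η' (ψ e) = σ (η e)
    · have hd : δ e = 1 := by simp only [δ, δz, if_pos hA, Int.cast_one]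
      rw [hA.1, hA.2]
      congr 1
      · split_ifs
        · rw [Phi_X, hd, C_1, one_mul]
        · rw [map_zero]
      · split_ifs
        · rw [Phi_X, hd, C_1, one_mul]
        · rw [map_zero]
    · have hd : δ e = -1 := by simp only [δ, δz, if_neg hA, Int.cast_neg, Int.cast_one]
      have hB := (h e).resolve_left hA
      rw [hB.1, hB.2]
      have e1 : Phi δ ψ (X e) = - X (ψ e) := by
        rw [Phi_X, hd, C_neg, C_1, neg_one_mul]
      have c1 : (σ (τ e) = i ∧ σ (η e) = j) ↔ (σ (η e) = j ∧ σ (τ e) = i) := and_comm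
      have c2 : (σ (τ e) = j ∧ σ (η e) = i) ↔ (σ (η e) = i ∧ σ (τ e) = j) := and_comm
      rw [apply_ite (Phi δ ψ), apply_ite (Phi δ ψ), e1, map_zero]
      simp only [c1, c2]
      split_ifs <;> ring
  refine ⟨((Equiv.Perm.sign σ : ℤˣ) : ℤ) ^ d * ∏ e, δz e, ?_, ?_⟩
  · apply Int.isUnit_iff.mp
    refine IsUnit.mul (((Equiv.Perm.sign σ).isUnit).pow d) ?_
    exact Finset.prod_induction _ IsUnit (fun a b => IsUnit.mul) isUnit_one fun e _ => hδz e
  · unfold cc
    rw [hSM, ← pf_map, ← map_pow, coeff_Phi, Pool.Agent.Y438.ZF.pf_perm, mul_pow, ← map_pow,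
      coeff_C_mul, Int.cast_mul, Int.cast_pow, Int.cast_prod]
    ring

end Pool.Agent.Y431.ZF
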